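import Pool.Agent.Helper75.CG.Defs2

/-!
# Project CH, module CH-N: the vertex set
-/

set_option autoImplicit false

namespace Pool.Agent.Helper75.CG

open scoped Classical
open Finset

theorem CHN_fiber {α : Type} [Fintype α] {β : α → Type} [∀ a, Fintype (β a)] (a : α) :
    (univ.filter (fun x : Sigma β => x.1 = a)).card = Fintype.card (β a) := by
  rw [← Fintype.card_subtype]
  exact Fintype.card_congr (Equiv.sigmaSubtype a)

theorem CHN_sum (R l : ℕ) (s : ℕ → ℕ) (hs : ∀ j < R, s j + (R - j) ≤ l) :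
    ∀ r ≤ R, ∑ j ∈ range r, 2 ^ s j ≤ 2 ^ (l - (R - r)) := by
  intro r
  induction r with
  | zero => intro _; simp
  | succ r ih =>
    intro hr
    have h1 := ih (by omega)
    have h2 := hs r (by omega)
    have h3 : 2 ^ s r ≤ 2 ^ (l - (R - r)) := Nat.pow_le_pow_right (by norm_num) (by omega)
    have h4 : l - (R - (r + 1)) = (l - (R - r)) + 1 := by omega
    rw [Finset.sum_range_succ, h4, pow_succ]
    omega

theorem exists_setup (R m : ℕ) (hm : 2 ≤ m) (z y k : ℕ → ℕ) (zR : z R = 0)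
    (hz : ∀ j < R, m ≤ 2 ^ z j) (hk : ∀ j ≤ R, k j ≤ 2 ^ y j) (l n : ℕ) (hy : y R = l)
    (hs : ∀ j < R, y j + z j + (R - j) ≤ l) (hn : 2 ^ (l + 1) ≤ n) :
    ∃ (V Δ : Type) (_ : Fintype V) (_ : Fintype Δ) (X : Setup V Δ) (_ : V ↪ Fin n),
      X.R = R ∧ X.m = m ∧ X.z = z ∧ X.y = y ∧ X.k = k := by
  let Δ : Type := Σ j : Fin (R + 1), Fin (2 ^ y j)
  let V : Type := Σ d : Δ, Fin (2 ^ z d.1)
  have hcard : Fintype.card V ≤ n := by
    have h1 : Fintype.card V = ∑ j ∈ range (R + 1), 2 ^ (y j + z j) := by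
      rw [Fintype.card_sigma, Fintype.sum_sigma, ← Fin.sum_univ_eq_sum_range]
      apply Finset.sum_congr rfl
      intro j _
      simp [pow_add]
    rw [h1, Finset.sum_range_succ, hy, zR, add_zero]
    have h2 := CHN_sum R l (fun j => y j + z j) hs R le_rfl
    have h3 : l - (R - R) = l := by omega
    rw [h3] at h2
    rw [pow_succ] at hn
    omega
  obtain ⟨emb⟩ : Nonempty (V ↪ Fin n) :=
    Function.Embedding.nonempty_of_card_le (by rw [Fintype.card_fin]; exact hcard)
  refine ⟨V, Δ, inferInstance, inferInstance,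
    { R := R, m := m, dis := Sigma.fst, gen := fun d => d.1.val, z := z, y := y, k := k, hm := hm,
      gen_le := fun d => Nat.lt_succ_iff.1 d.1.2, card_dis := ?_, card_gen := ?_, zR := zR,
      hz := hz, hk := hk }, emb, rfl, rfl, rfl, rfl, rfl⟩
  · intro δ
    exact (CHN_fiber (β := fun d : Δ => Fin (2 ^ z d.1)) δ).trans (Fintype.card_fin _)
  · intro j hj
    have h := CHN_fiber (β := fun i : Fin (R + 1) => Fin (2 ^ y i)) ⟨j, Nat.lt_succ_iff.2 hj⟩
    rw [Fintype.card_fin] at h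
    rw [← h]
    congr 1
    ext δ
    simp only [Finset.mem_filter, Finset.mem_univ, true_and, Fin.ext_iff]

end Pool.Agent.Helper75.CG
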