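import Pool.Agent.Helper75.CG.Defs2

/-!
# Project CH, module CH-P: the optimal mixture for `m = 4, 5`
-/

set_option autoImplicit false

namespace Pool.Agent.Helper75.CG

open scoped Classical
open Finset
open Pool.Agent.Helper65.CliqueGame

/-- The statement of `lower_mix` (CH-O). -/
def LowerMix : Prop := ∀ (m : ℕ) (_ : 2 ≤ m) (a b : ℝ) (_ : 0 < a) (_ : 0 < b) (_ : a < 2)
    (_ : Real.logb 2 (m + 1) * m * b < 2)
    (_ : a ^ 2 / 2 + Real.logb 2 (m + 1) * m * b ^ 2 / 2 + Real.logb 2 (m + 1) * a * b < a + b),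
    ∃ n₀ : ℕ, ∀ n ≥ n₀, ∀ q : ℕ, (q : ℝ) ≤ (a + m * b) * Real.logb 2 n →
      MakerWins n m q true ∅ ∅

theorem CHP_key {M c : ℝ} (h1 : 1 < c) (h2 : 2 * c < M + 1)
    (h3 : M * (M * c - 2 * c + 1) * (M - c) < (M * c + M - 2 * c) ^ 2) :
    ∃ a b : ℝ, 0 < a ∧ 0 < b ∧ a < 2 ∧ c * M * b < 2 ∧
      a ^ 2 / 2 + c * M * b ^ 2 / 2 + c * a * b = a + b ∧
      a + M * b = (1 + √(M * (M * c - 2 * c + 1) / (M - c))) / c := by
  have hc : 0 < c := by linarith
  have hMc : 0 < M - c := by linarith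
  have hM1 : 1 < M := by linarith
  have hM : 0 < M := by linarith
  set x : ℝ := M * (M * c - 2 * c + 1) / (M - c) with hx
  have hnum : 0 < M * c - 2 * c + 1 := by nlinarith
  have hx0 : 0 ≤ x := by positivity
  set S : ℝ := √x with hS
  have hS2 : S ^ 2 = x := Real.sq_sqrt hx0
  have hlow : M * (c - 1) / (M - c) < S := by
    rw [hS]
    apply Real.lt_sqrt_of_sq_lt
    rw [hx, div_pow, div_lt_div_iff₀ (by positivity) hMc]
    have h4 : 0 < c * (M - 1) * (M + 1 - 2 * c) := by
      have : 0 < M + 1 - 2 * c := by linarith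
      have : 0 < M - 1 := by linarith
      positivity
    have h5 : M * (M * c - 2 * c + 1) * (M - c) ^ 2 - (M * (c - 1)) ^ 2 * (M - c) =
        M * (M - c) * (c * (M - 1) * (M + 1 - 2 * c)) := by ring
    have h6 : 0 < M * (M - c) * (c * (M - 1) * (M + 1 - 2 * c)) := by positivity
    linarith
  have hup : S < 2 + M * (c - 1) / (M - c) := by
    rw [hS, Real.sqrt_lt' (by
      have : 0 < M * (c - 1) / (M - c) := by
        have : 0 < c - 1 := by linarith
        positivity
      linarith)]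
    have h4 : 2 + M * (c - 1) / (M - c) = (M * c + M - 2 * c) / (M - c) := by
      field_simp
      ring
    rw [h4, hx, div_pow, div_lt_div_iff₀ hMc (by positivity)]
    have h5 : M * (M * c - 2 * c + 1) * (M - c) ^ 2 =
        (M * (M * c - 2 * c + 1) * (M - c)) * (M - c) := by ring
    rw [h5]
    exact mul_lt_mul_of_pos_right h3 hMc
  refine ⟨(M - 1) / (M - c), (S - M * (c - 1) / (M - c)) / (M * c), ?_, ?_, ?_, ?_, ?_, ?_⟩
  · have : 0 < M - 1 := by linarith
    positivity
  · have : 0 < S - M * (c - 1) / (M - c) := by linarith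
    positivity
  · rw [div_lt_iff₀ hMc]
    linarith
  · have h4 : c * M * ((S - M * (c - 1) / (M - c)) / (M * c)) = S - M * (c - 1) / (M - c) := by
      field_simp
    rw [h4]
    linarith
  · have h4 : ((M - 1) / (M - c)) ^ 2 / 2 +
        c * M * ((S - M * (c - 1) / (M - c)) / (M * c)) ^ 2 / 2 +
        c * ((M - 1) / (M - c)) * ((S - M * (c - 1) / (M - c)) / (M * c)) -
        ((M - 1) / (M - c) + (S - M * (c - 1) / (M - c)) / (M * c)) =
        (S ^ 2 - M * (M * c - 2 * c + 1) / (M - c)) / (2 * c * M) := by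
      have hne : M - c ≠ 0 := hMc.ne'
      field_simp
      ring
    rw [hS2, hx, sub_self, zero_div] at h4
    linarith
  · have hne : M - c ≠ 0 := hMc.ne'
    field_simp
    ring

theorem CHP_log {x : ℝ} {p q : ℕ} (hq : 0 < q) (hx : 0 < x) (h : x ^ q < 2 ^ p) :
    Real.logb 2 x < p / q := by
  rw [lt_div_iff₀ (by exact_mod_cast hq), mul_comm, ← Real.logb_pow,
    Real.logb_lt_iff_lt_rpow (by norm_num) (by positivity), Real.rpow_natCast]
  exact h

theorem CHP_log' {x : ℝ} {p q : ℕ} (hq : 0 < q) (hx : 0 < x) (h : (2 : ℝ) ^ p < x ^ q) :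
    (p : ℝ) / q < Real.logb 2 x := by
  rw [div_lt_iff₀ (by exact_mod_cast hq), mul_comm, ← Real.logb_pow,
    Real.lt_logb_iff_rpow_lt (by norm_num) (by positivity), Real.rpow_natCast]
  exact h

theorem lower_static_of (hL : LowerMix) (m : ℕ) (hm : m = 4 ∨ m = 5) (ε : ℝ) (hε : 0 < ε) :
    ∃ n₀ : ℕ, ∀ n ≥ n₀, ∀ q : ℕ, (q : ℝ) ≤
      ((1 + √(m * (m * Real.logb 2 (m + 1) - 2 * Real.logb 2 (m + 1) + 1) /
        (m - Real.logb 2 (m + 1)))) / Real.logb 2 (m + 1) - ε) * Real.logb 2 n →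
      MakerWins n m q true ∅ ∅ := by
  have hm2 : 2 ≤ m := by omega
  have h1 : 1 < Real.logb 2 ((m : ℝ) + 1) := by
    have h := CHP_log' (x := (m : ℝ) + 1) (p := 1) (q := 1) (by norm_num) (by positivity) (by
      rcases hm with rfl | rfl <;> norm_num)
    simpa using h
  have h2 : 2 * Real.logb 2 ((m : ℝ) + 1) < m + 1 := by
    rcases hm with hm | hm
    · have hmr : (m : ℝ) = 4 := by exact_mod_cast hm
      rw [hmr]
      have h := CHP_log (x := (4 : ℝ) + 1) (p := 5) (q := 2) (by norm_num) (by norm_num)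
        (by norm_num)
      generalize Real.logb 2 ((4 : ℝ) + 1) = c at h ⊢
      norm_num at h ⊢
      linarith
    · have hmr : (m : ℝ) = 5 := by exact_mod_cast hm
      rw [hmr]
      have h := CHP_log (x := (5 : ℝ) + 1) (p := 3) (q := 1) (by norm_num) (by norm_num)
        (by norm_num)
      generalize Real.logb 2 ((5 : ℝ) + 1) = c at h ⊢
      norm_num at h ⊢
      linarith
  have h3 : (m : ℝ) * (m * Real.logb 2 ((m : ℝ) + 1) - 2 * Real.logb 2 ((m : ℝ) + 1) + 1) *
      (m - Real.logb 2 ((m : ℝ) + 1)) <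
      (m * Real.logb 2 ((m : ℝ) + 1) + m - 2 * Real.logb 2 ((m : ℝ) + 1)) ^ 2 := by
    rcases hm with hm | hm
    · have hmr : (m : ℝ) = 4 := by exact_mod_cast hm
      rw [hmr] at h1 ⊢
      generalize Real.logb 2 ((4 : ℝ) + 1) = c at h1 ⊢
      nlinarith
    · have hmr : (m : ℝ) = 5 := by exact_mod_cast hm
      rw [hmr]
      have h := CHP_log' (x := (5 : ℝ) + 1) (p := 5) (q := 3) (by norm_num) (by norm_num)
        (by norm_num)
      generalize Real.logb 2 ((5 : ℝ) + 1) = c at h ⊢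
      norm_num at h
      nlinarith
  set c : ℝ := Real.logb 2 ((m : ℝ) + 1) with hc
  obtain ⟨a, b, ha, hb, ha2, hb2, hF, hs⟩ := CHP_key h1 h2 h3
  set s : ℝ := (1 + √(m * (m * c - 2 * c + 1) / (m - c))) / c with hsd
  have hs0 : 0 < s := by
    rw [← hs]
    positivity
  set δ : ℝ := min (1 / 2) (ε / s) with hδ
  have hδ0 : 0 < δ := lt_min (by norm_num) (by positivity)
  have hδ1 : δ ≤ 1 / 2 := min_le_left _ _
  have hδs : s * δ ≤ ε := by
    calc s * δ ≤ s * (ε / s) := mul_le_mul_of_nonneg_left (min_le_right _ _) hs0.le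
      _ = ε := by field_simp
  have ht0 : 0 < 1 - δ := by linarith
  have hab : 0 < a + b := by linarith
  obtain ⟨n₀, hn₀⟩ := hL m hm2 ((1 - δ) * a) ((1 - δ) * b) (by positivity) (by positivity)
    (by nlinarith) (by
      have h4 : c * m * ((1 - δ) * b) = (1 - δ) * (c * m * b) := by ring
      have h5 : 0 < c * m * b := by
        have : 0 < c := by linarith
        have : (0 : ℝ) < m := by exact_mod_cast (by omega : 0 < m)
        positivity
      rw [← hc, h4]
      nlinarith) (by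
      have h4 : ((1 - δ) * a) ^ 2 / 2 + c * m * ((1 - δ) * b) ^ 2 / 2 +
          c * ((1 - δ) * a) * ((1 - δ) * b) =
          (1 - δ) ^ 2 * (a ^ 2 / 2 + c * m * b ^ 2 / 2 + c * a * b) := by ring
      rw [← hc, h4, hF]
      have h5 : (1 - δ) * a + (1 - δ) * b - (1 - δ) ^ 2 * (a + b) =
          (1 - δ) * δ * (a + b) := by ring
      have h6 : 0 < (1 - δ) * δ * (a + b) := by positivity
      linarith)
  refine ⟨n₀, fun n hn q hq => hn₀ n hn q (hq.trans ?_)⟩
  have hlog : 0 ≤ Real.logb 2 (n : ℝ) := by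
    rcases Nat.eq_zero_or_pos n with h | h
    · rw [h]
      simp
    · exact Real.logb_nonneg (by norm_num) (by exact_mod_cast h)
  apply mul_le_mul_of_nonneg_right _ hlog
  have h4 : (1 - δ) * a + m * ((1 - δ) * b) = (1 - δ) * (a + m * b) := by ring
  rw [h4, hs]
  linarith

end Pool.Agent.Helper75.CG
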